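import Pool.Agent.W_a4f561_h1.Def
import Pool.Agent.W_a4f561_h53.Lv53

/-!
MP_a4f561_co, polylog: the initial state of the region machine (helper26).
-/

set_option autoImplicit false

namespace Pool.Agent.W_a4f561_P26

open Pool.Agent.W_a4f561_h26 Pool.Agent.W_a4f561_P73 Pool.Agent.W_a4f561_P45 Pool.Agent.W_a4f561_P8
open Pool.Agent.W_a4f561_P16 Pool.Agent.W_a4f561_h1 Pool.Agent.W_a4f561_Lv53

variable {V : Type} (G : Bars V)

/-- The default choice function: everything goes up. -/
noncomputable def pi0 (v : V) : V := by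
  classical
  exact if v = G.bot then G.bot else if v = G.top then G.top else G.up v

theorem ch_pi0 : Ch G (pi0 G) := by
  refine ⟨?_, ?_, ?_⟩
  · unfold pi0
    rw [if_pos rfl]
  · unfold pi0
    rw [if_neg (fun h => G.ne h.symm), if_pos rfl]
  · intro v hv
    right
    unfold pi0
    rw [if_neg hv.1, if_neg hv.2]

/-- The initial drawn set. -/
noncomputable def st0 : St V where
  S := {G.bot, G.top}
  Dec := ∅
  Lat := ∅
  pi := pi0 G
  RD := ∅
  RU := ∅

/-- The initial machine. -/
noncomputable def ms0 : MS V where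
  σ := st0 G
  cell := fun _ => 0
  nl := 1
  par := fun _ => 0
  s := fun _ => 0
  e := fun _ => 0
  rk := fun i => if i = 0 then 0 else 1
  ph := fun _ => 0
  sd := fun _ => false
  np := 0
  phs := fun _ => 0
  lc := fun _ => 0
  st := fun _ => G.bot
  rt := fun _ => G.bot
  ev := fun _ _ _ _ _ => False

variable {G}

theorem inn_st0 {v : V} : v ∉ (st0 G).S ↔ G.inn v := by
  show v ∉ ({G.bot, G.top} : Set V) ↔ _
  simp only [Set.mem_insert_iff, Set.mem_singleton_iff, not_or]
  exact Iff.rfl

theorem law_ch0 (ω : V × Bool → Bool) : Ch G (law G (st0 G) ω) := by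
  have hb : G.bot ∈ (st0 G).S := by show G.bot ∈ ({G.bot, G.top} : Set V); simp
  have ht : G.top ∈ (st0 G).S := by show G.top ∈ ({G.bot, G.top} : Set V); simp
  refine ⟨?_, ?_, ?_⟩
  · unfold law
    rw [if_pos (show G.bot ∈ (st0 G).S ∪ (st0 G).Dec from Or.inl hb)]
    exact (ch_pi0 G).1
  · unfold law
    rw [if_pos (show G.top ∈ (st0 G).S ∪ (st0 G).Dec from Or.inl ht)]
    exact (ch_pi0 G).2.1
  · intro v hv
    unfold law
    split_ifs
    · exact (ch_pi0 G).2.2 v hv
    · rcases zz_cases G hv with ⟨h1, _⟩ | ⟨h1, _⟩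
      · exact Or.inr h1
      · exact Or.inl h1
    · rcases zz_cases G hv with ⟨_, h1, _⟩ | ⟨_, h1, _⟩
      · exact Or.inl h1
      · exact Or.inr h1

/-- A route leaves the set of the inner vertices. -/
theorem lv_all {D E : Set V} (hD : ∀ v, v ∈ D → G.inn v) (hE : ∀ v, v ∉ D → v ∈ E) {ρ : V → V} (hρ : Ch G ρ) :
    ∀ n v, G.N - G.t v = n → LV G D E ρ v := by
  intro n
  induction n using Nat.strong_induction_on with
  | _ n ih =>
    intro v hn
    by_cases hv : v ∈ D
    · rw [lv_in hρ hv]
      have hi := hD v hv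
      have h1 : G.t v < G.t (ρ v) := by
        rcases hρ.2.2 v hi with h | h <;> rw [h]
        · exact t_lo G hi
        · exact t_up G hi
      have h2 : G.t v < G.N := G.t_in v hi.1 hi.2
      exact ih (G.N - G.t (ρ v)) (by omega) (ρ v) rfl
    · exact (lv_out hρ hv).2 (hE v hv)

section pr

variable [Fintype V] [DecidableEq V]

theorem pr_all {m : V × Bool → Option Bool} {A : (V × Bool → Bool) → Prop} (hA : ∀ ω, A ω) : pr m A = 1 := by
  classical
  unfold pr
  have h1 : (Finset.univ.filter (fun ω : V × Bool → Bool => A (ov m ω))) = Finset.univ := by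
    ext ω
    simp [hA]
  rw [h1, Finset.card_univ, Fintype.card_fun, Fintype.card_bool]
  push_cast
  exact div_self (by positivity)

theorem init (rnk : V → ℕ) (N : ℕ) (c : V) : WI G rnk N 0 (ms0 G) c := by
  have hSi : ∀ v ∈ (ms0 G).σ.S, ¬ G.inn v := fun v hv hi => (inn_st0 (G := G)).2 hi hv
  have hb : G.bot ∈ (st0 G).S := by show G.bot ∈ ({G.bot, G.top} : Set V); simp
  have ht : G.top ∈ (st0 G).S := by show G.top ∈ ({G.bot, G.top} : Set V); simp
  have hAnc : ∀ i, 1 ≤ i → ∀ v, v ∉ (ms0 G).C i := by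
    intro i hi v hv
    have h1 : Anc (ms0 G).par i 0 := hv
    have h2 := anc_le (par := (ms0 G).par) rfl (fun j hj => hj) h1
    omega
  refine
    { inv := ?_
      lab := ?_
      par_lt := fun i hi => hi
      s0 := rfl
      rk0 := rfl
      dflt := fun i _ => ⟨rfl, rfl, rfl⟩
      nl_pos := le_rfl
      cell_lt := fun v => Nat.zero_lt_one
      ph_rng := fun i h1 h2 => absurd h2 (by show ¬ i < 1; omega)
      lab_par := fun i h1 h2 => absurd h2 (by show ¬ i < 1; omega)
      lab_rk := fun i h1 h2 => absurd h2 (by show ¬ i < 1; omega)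
      lab_e := fun i h1 h2 => absurd h2 (by show ¬ i < 1; omega)
      lc_lt := fun k h1 h2 => absurd h2 (by show ¬ k ≤ 0; omega)
      phs_rng := fun v hv hi => absurd hi (hSi v hv)
      cellS := fun v hv hi => absurd hi (hSi v hv)
      I1 := ?_
      I2 := fun i hi v hv hi' => absurd hi' (hSi v hv)
      I3 := fun i hi v hv => absurd hv (hAnc i hi v)
      lens := ?_
      evd := fun k b kd v w h => h.elim
      cust := fun k b kd v w h => h.elim
      own := fun k h1 h2 => absurd h2 (by show ¬ k ≤ 0; omega)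
      root := fun v hv hi => absurd hi (hSi v hv)
      rtS := fun k h1 h2 => absurd h2 (by show ¬ k ≤ 0; omega)
      win := fun k h1 h2 => absurd h2 (by show ¬ k ≤ 0; omega)
      mv := fun k h1 h2 => absurd h2 (by show ¬ k + 1 ≤ 0; omega)
      cont := fun k l m h1 h2 h3 h4 => absurd h4 (by show ¬ m ≤ 0; omega)
      low := fun v hv hi => absurd hi (hSi v hv)
      wlk := fun v _ i hi hv => absurd hv (hAnc i hi v) }
  · refine ⟨hb, ht, ch_pi0 G, ?_, rfl, fun R hR => hR.elim, fun R hR => hR.elim, fun u hu => hu.elim⟩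
    intro v hv
    left
    have h1 : v = G.bot ∨ v = G.top := hv
    rcases h1 with rfl | rfl
    · show pi0 G G.bot ∈ _
      rw [(ch_pi0 G).1]
      exact hb
    · show pi0 G G.top ∈ _
      rw [(ch_pi0 G).2.1]
      exact ht
  · refine ⟨rfl, ?_, ?_, ?_, ?_⟩
    · intro i hi
      show (if (0 : ℕ) = 0 then 0 else 1) < (if i = 0 then 0 else 1)
      rw [if_pos rfl, if_neg (by omega)]
      exact Nat.zero_lt_one
    · intro i j hi hj _
      show (if i = 0 then 0 else 1) = (if j = 0 then 0 else 1)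
      rw [if_neg (by omega), if_neg (by omega)]
    · intro i j _ _ _
      exact le_rfl
    · intro c τ P hP
      rw [Finset.card_eq_zero.2]
      · exact Nat.zero_le _
      · refine Finset.eq_empty_of_forall_notMem fun i hi => ?_
        have h1 := (hP i hi).2.2.2
        exact absurd h1 (Nat.not_lt_zero τ)
  · intro v hv
    have h0 : kap (Fintype.card V) ((ms0 G).rk ((ms0 G).cell v)) = 1 := by
      show kap (Fintype.card V) (if (0 : ℕ) = 0 then 0 else 1) = 1
      rw [if_pos rfl, kap_zero]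
    rw [h0]
    have h1 : ∀ ω, LV G ((ms0 G).D ((ms0 G).cell v)) ((ms0 G).E G ((ms0 G).cell v)) (law G (ms0 G).σ ω) v := by
      intro ω
      have h2 : ∀ u, u ∉ (ms0 G).D ((ms0 G).cell v) → u ∈ (ms0 G).E G ((ms0 G).cell v) := fun u hu =>
        ⟨Or.inl (show Anc (ms0 G).par 0 0 from ⟨0, rfl⟩), hu⟩
      exact lv_all (fun u hu => (inn_st0 (G := G)).1 hu.1) h2 (law_ch0 ω) _ v rfl
    rw [pr_all h1]
  · intro i
    intro τ hτ x z x' w π π' hπ hπ' ax az ax' h1 h2 h3 h4
    have hi : G.inn z := by
      refine ⟨fun e => ?_, fun e => ?_⟩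
      · rw [e] at h1
        rcases eq_or_ne x G.bot with e2 | e2
        · rw [e2] at h1
          exact lt_irrefl _ h1
        · exact lt_asymm h1 (G.r_bot x e2)
      · rw [e] at h2
        rcases eq_or_ne x' G.top with e2 | e2
        · rw [e2] at h2
          exact lt_irrefl _ h2
        · exact lt_asymm h2 (G.r_top x' e2)
    have h5 : x ∈ (ms0 G).D i := h3.2 x ⟨0, rfl⟩ (orb_t hπ.1 h3.1)
    refine ⟨(inn_st0 (G := G)).2 hi, ?_⟩
    exact h5.2

end pr

end Pool.Agent.W_a4f561_P26
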