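import Pool.Agent.W_a4f561_h1.Def
import Pool.Agent.W_a4f561_P73.Trk73

/-!
MP_a4f561_co, polylog: the mirror image of the notions of Def.lean (helper26).
-/

set_option autoImplicit false

namespace Pool.Agent.W_a4f561_P26

open Pool.Agent.W_a4f561_h26 Pool.Agent.W_a4f561_P73 Pool.Agent.W_a4f561_h1
open Pool.Agent.W_a4f561_P25 (Tc Ar Area)

variable {V : Type} {G : Bars V} {σ σ1 : St V} {c : V}

theorem isrc_mir' {G : Bars V} {R : Rec V} (h : IsRc G σ R) : IsRc G σ.mir R :=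
  ⟨h.q_mem, h.hst, h.b_le, h.ac, h.cN, h.y_b, h.y_t, h.ta, h.tc, h.ya, h.yc, h.dec⟩

theorem isrc_mm {R : Rec V} (h : IsRc G σ R) : IsRc G.mir.mir σ.mir R := by
  rw [mir_mir]
  exact isrc_mir' h

theorem decBy_mm {R : Rec V} {u : V} (h : DecBy G σ R u) : DecBy G.mir.mir σ.mir R u := by
  rw [mir_mir]
  exact h

theorem winv_mir (h : WInv G σ c) : WInv G.mir σ.mir c where
  bot_mem := h.top_mem
  top_mem := h.bot_mem
  ch := ch_mir.2 h.ch
  cl := h.cl
  lat := h.lat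
  recD := fun R hR => isrc_mir' (h.recU R hR)
  recU := fun R hR => isrc_mm (h.recD R hR)
  decl := fun u h1 h2 => by
    rcases h.decl u h1 h2 with ⟨R, h3, h4⟩ | ⟨R, h3, h4⟩
    · exact Or.inr ⟨R, h3, decBy_mm h4⟩
    · exact Or.inl ⟨R, h3, h4⟩

theorem base0_of (h : WInv G σ c) : Base0 G σ := ⟨h.bot_mem, h.top_mem, h.ch⟩

theorem law_mir (h : WInv G σ c) (ω : V × Bool → Bool) : law G.mir σ.mir ω = law G σ ω := law_mir0 (base0_of h) ω

theorem area_mir {π : V → V} {z : V} {tl : ℕ} {u : V} : Area G.mir π z tl u ↔ Area G π z tl u := by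
  unfold Area
  rw [mir_mir]
  exact Or.comm

section pr

variable [Fintype V] [DecidableEq V]

theorem bp_mir (h : WInv G σ c) {D : Set V} {ω : V × Bool → Bool} {z : V} :
    Bp G.mir σ.mir D ω z = Bp G σ D ω z := by
  unfold Bp
  rw [law_mir h]
  rfl

theorem td_mir (h : WInv G σ c) {D E : Set V} {δ : ℝ} {N : ℕ} {ω : V × Bool → Bool} {z e : V}
    (hT : TD G σ D E δ N ω z e) : TD G.mir σ.mir D E δ N ω z e where
  exi := by
    rw [law_mir h]
    exact hT.exi
  eE := hT.eE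
  nD := fun w hw => by
    rw [law_mir h] at hw
    exact hT.nU w hw
  nU := fun w hw => by
    rw [law_mir h] at hw
    rw [mir_mir]
    exact hT.nD w hw

theorem dr1_mir (h : WInv G σ c) {D : Set V} {ω : V × Bool → Bool} {z e vl : V} (hD : Dr1 G σ D ω z e vl σ1) :
    Dr1 G.mir σ.mir D ω z e vl σ1.mir where
  vlB := by
    rw [bp_mir h]
    exact hD.vlB
  vle := by
    rw [law_mir h]
    exact hD.vle
  inv := winv_mir hD.inv
  S := fun v => by
    rw [bp_mir h]
    exact hD.S v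
  piO := hD.piO
  piB := fun v hv => by
    rw [bp_mir h] at hv
    rw [law_mir h]
    exact hD.piB v hv
  Dec := hD.Dec
  decN := fun u h1 h2 => ⟨(hD.decN u h1 h2).1, area_mir.2 (hD.decN u h1 h2).2⟩
  RD := hD.RU
  RU := hD.RD
  newD := hD.newU
  newU := fun R h1 h2 => by
    rw [mir_mir]
    exact hD.newD R h1 h2
  exD := hD.exU
  exU := fun y a c hac ha hc => by
    rw [mir_mir] at ha hc
    exact hD.exD y a c hac ha hc
  noS := fun u hu ha => hD.noS u hu (area_mir.1 ha)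

theorem lens_mir' {D : Set V} {s : ℕ} (h : LENS G.mir σ.mir D s) : LENS G σ D s := by
  have h1 := Pool.Agent.W_a4f561_P70.lens_mir h
  rw [mir_mir] at h1
  exact h1

theorem fam_mir (h : WInv G σ1 c) {D1 B : Set V} {κ : ℝ} {M q : ℕ} {F : ℕ → Set V} {s e : ℕ → ℕ}
    (hF : Fam G.mir σ1.mir D1 B κ M q F s e) : Fam G σ1 D1 B κ M q F s e where
  sub := hF.sub
  dis := hF.dis
  tm := hF.tm
  mono := hF.mono
  eB := hF.eB
  suc := fun l hl u hu => by
    have h1 := hF.suc l hl u hu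
    have h2 : ∀ ω, law G.mir σ1.mir ω = law G σ1 ω := fun ω => law_mir h ω
    simp only [h2] at h1
    exact h1
  lens := fun l hl => lens_mir' (hF.lens l hl)
  opn := hF.opn

/-- A smaller cell. -/
theorem fam_sub {D1 D2 B : Set V} {κ : ℝ} {M q : ℕ} {F : ℕ → Set V} {s e : ℕ → ℕ}
    (hF : Fam G σ1 D1 B κ M q F s e) (h : ∀ l, l < q → F l ⊆ D2) : Fam G σ1 D2 B κ M q F s e :=
  ⟨h, hF.dis, hF.tm, hF.mono, hF.eB, hF.suc, hF.lens, hF.opn⟩

end pr

end Pool.Agent.W_a4f561_P26
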